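import Pool.Agent.ZPT.Stmts

/-!
Row MP of the squad ZPT: `Δ^(k m) * Σ J((a z + b)/d)^k` is a modular form.
-/

set_option autoImplicit false

noncomputable section

namespace Pool.Agent.ZPT.H76

open UpperHalfPlane ModularForm ModularFormClass MatrixGroups EisensteinSeries Filter Topology
  Asymptotics

theorem im_hpt (m : ℕ) (x : ℕ × ℕ) (z : ℂ) :
    (hpt m x z).im = (x.1 : ℝ) * z.im / ((m / x.1 : ℕ) : ℝ) := by
  unfold hpt
  rw [Complex.div_natCast_im]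
  congr 1
  simp

theorem idx_facts {m : ℕ} {x : ℕ × ℕ} (hm : 1 ≤ m) (hx : x ∈ idx m) :
    1 ≤ x.1 ∧ x.1 ≤ m ∧ 1 ≤ m / x.1 := by
  unfold idx at hx
  rw [Finset.mem_filter, Finset.mem_product, Nat.mem_divisors] at hx
  obtain ⟨⟨⟨h1, h2⟩, h3⟩, h4⟩ := hx
  have h5 : x.1 ≤ m := Nat.le_of_dvd (by omega) h1
  exact ⟨Nat.pos_of_dvd_of_pos h1 (by omega), h5, by omega⟩

theorem im_hpt_pos {m : ℕ} {x : ℕ × ℕ} (hm : 1 ≤ m) (hx : x ∈ idx m) {z : ℂ} (hz : 0 < z.im) :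
    0 < (hpt m x z).im := by
  obtain ⟨h1, -, h2⟩ := idx_facts hm hx
  rw [im_hpt]
  have h3 : (0 : ℝ) < (x.1 : ℝ) := by exact_mod_cast h1
  have h4 : (0 : ℝ) < ((m / x.1 : ℕ) : ℝ) := by exact_mod_cast h2
  positivity

/-- `J` is holomorphic on the upper half plane -/
theorem J_diffOn (hJE : JEStmt) : DifferentiableOn ℂ J {z : ℂ | 0 < z.im} := by
  have hE : DifferentiableOn ℂ ((E₄ : ℍ → ℂ) ∘ ofComplex) {z : ℂ | 0 < z.im} :=
    UpperHalfPlane.mdifferentiable_iff.mp E₄.holo'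
  have hD : DifferentiableOn ℂ ((CuspForm.discriminant : ℍ → ℂ) ∘ ofComplex) {z : ℂ | 0 < z.im} :=
    UpperHalfPlane.mdifferentiable_iff.mp CuspForm.discriminant.holo'
  have h1 : DifferentiableOn ℂ (fun z : ℂ => (E₄ (ofComplex z)) ^ 3 /
      ModularForm.discriminant (ofComplex z)) {z : ℂ | 0 < z.im} :=
    (hE.pow 3).div hD fun z _ => discriminant_ne_zero _
  refine h1.congr fun z hz => ?_
  have hz' : 0 < z.im := hz
  have h2 : ((ofComplex z : ℍ) : ℂ) = z := by rw [ofComplex_apply_of_im_pos hz']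
  rw [← hJE (ofComplex z), h2]

/-- growth of `J` -/
theorem J_growth (hJE : JEStmt) :
    (fun w : ℍ => J (w : ℂ)) =O[atImInfty] fun w : ℍ => Real.exp (2 * Real.pi * w.im) := by
  have h1 : (E₄ : ℍ → ℂ) =O[atImInfty] (1 : ℍ → ℝ) := ModularFormClass.bdd_at_infty E₄
  have h2 : (fun w : ℍ => (E₄ w) ^ 3) =O[atImInfty] (fun _ : ℍ => (1 : ℝ)) := by
    simpa using h1.pow 3
  have h3 : (fun w : ℍ => (ModularForm.discriminant w)⁻¹) =O[atImInfty]
      fun w : ℍ => (Real.exp (-2 * Real.pi * w.im))⁻¹ :=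
    exp_isBigO_discriminant.inv_rev (Eventually.of_forall fun w h =>
      absurd h (Real.exp_pos _).ne')
  have h4 := h2.mul h3
  refine (h4.congr_left fun w => ?_).congr_right fun w => ?_
  · rw [hJE w, div_eq_mul_inv]
  · rw [one_mul, ← Real.exp_neg]
    congr 1
    ring

/-- the map `z ↦ (a z + b)/d` of the upper half plane -/
def hup {m : ℕ} {x : ℕ × ℕ} (hm : 1 ≤ m) (hx : x ∈ idx m) (z : ℍ) : ℍ :=
  ⟨hpt m x (z : ℂ), im_hpt_pos hm hx z.2⟩

theorem hup_im {m : ℕ} {x : ℕ × ℕ} (hm : 1 ≤ m) (hx : x ∈ idx m) (z : ℍ) :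
    (hup hm hx z).im = (x.1 : ℝ) * z.im / ((m / x.1 : ℕ) : ℝ) := im_hpt m x z

theorem hup_tendsto {m : ℕ} {x : ℕ × ℕ} (hm : 1 ≤ m) (hx : x ∈ idx m) :
    Tendsto (hup hm hx) atImInfty atImInfty := by
  obtain ⟨h1, -, h2⟩ := idx_facts hm hx
  have h3 : (0 : ℝ) < (x.1 : ℝ) := by exact_mod_cast h1
  have h4 : (0 : ℝ) < ((m / x.1 : ℕ) : ℝ) := by exact_mod_cast h2
  have h5 : Tendsto (fun z : ℍ => z.im) atImInfty atTop := tendsto_comap
  have h6 : Tendsto (fun z : ℍ => (hup hm hx z).im) atImInfty atTop := by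
    have h7 : Tendsto (fun z : ℍ => ((x.1 : ℝ) / ((m / x.1 : ℕ) : ℝ)) * z.im) atImInfty atTop :=
      h5.const_mul_atTop (div_pos h3 h4)
    refine h7.congr fun z => ?_
    rw [hup_im]; ring
  exact tendsto_comap_iff.mpr h6

theorem disc_decay : (fun z : ℍ => ModularForm.discriminant z) =O[atImInfty]
    fun z : ℍ => Real.exp (-2 * Real.pi * z.im) := by
  have h1 := CuspFormClass.exp_decay_atImInfty (h := 1) CuspForm.discriminant one_pos
      one_mem_strictPeriods_SL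
  refine h1.congr_right fun z => ?_
  rw [div_one]

theorem exp_ineq (m : ℕ) (a d y : ℝ) (hy : 0 < y) (ha : a ≤ m) (hd : 1 ≤ d) :
    Real.exp (-2 * Real.pi * y) ^ m * Real.exp (2 * Real.pi * (a * y / d)) ≤ 1 := by
  rw [← Real.exp_nat_mul, ← Real.exp_add, Real.exp_le_one_iff]
  have h5 : a * y / d ≤ (m : ℝ) * y := by
    rw [div_le_iff₀ (by linarith)]
    have h6 : a * y ≤ (m : ℝ) * y := mul_le_mul_of_nonneg_right ha hy.le
    have h7 : 0 ≤ (m : ℝ) * y := by positivity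
    calc a * y ≤ (m : ℝ) * y := h6
      _ = (m : ℝ) * y * 1 := by ring
      _ ≤ (m : ℝ) * y * d := mul_le_mul_of_nonneg_left hd h7
  have h6 := mul_le_mul_of_nonneg_left h5 (by positivity : (0 : ℝ) ≤ 2 * Real.pi)
  have h7 : (m : ℝ) * (-2 * Real.pi * y) = -(2 * Real.pi * ((m : ℝ) * y)) := by ring
  rw [h7]
  linarith

theorem J_hpt (hJE : JEStmt) {m : ℕ} {x : ℕ × ℕ} (hm : 1 ≤ m) (hx : x ∈ idx m) :
    (fun z : ℍ => J (hpt m x (z : ℂ))) =O[atImInfty]
      fun z : ℍ => Real.exp (2 * Real.pi * ((x.1 : ℝ) * z.im / ((m / x.1 : ℕ) : ℝ))) := by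
  have h1 := (J_growth hJE).comp_tendsto (hup_tendsto hm hx)
  refine (h1.congr_left fun z => rfl).congr_right fun z => ?_
  show Real.exp (2 * Real.pi * (hup hm hx z).im) = _
  rw [hup_im]

theorem term_bdd (hJE : JEStmt) {m : ℕ} {x : ℕ × ℕ} (hm : 1 ≤ m) (hx : x ∈ idx m) :
    (fun z : ℍ => ModularForm.discriminant z ^ m * J (hpt m x (z : ℂ))) =O[atImInfty]
      (fun _ : ℍ => (1 : ℝ)) := by
  obtain ⟨h1, h2, h3⟩ := idx_facts hm hx
  have h4 : (fun z : ℍ => ModularForm.discriminant z ^ m * J (hpt m x (z : ℂ))) =O[atImInfty]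
      fun z : ℍ => Real.exp (-2 * Real.pi * z.im) ^ m *
        Real.exp (2 * Real.pi * ((x.1 : ℝ) * z.im / ((m / x.1 : ℕ) : ℝ))) :=
    (disc_decay.pow m).mul (J_hpt hJE hm hx)
  refine h4.trans ?_
  refine IsBigO.of_bound 1 (Eventually.of_forall fun z => ?_)
  rw [one_mul, norm_one, Real.norm_of_nonneg (by positivity)]
  exact exp_ineq m _ _ z.im z.im_pos (by exact_mod_cast h2) (by exact_mod_cast h3)

/-- the function of the row MP -/
def FF (m k : ℕ) (z : ℍ) : ℂ :=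
  ModularForm.discriminant z ^ (k * m) * ∑ x ∈ idx m, J (hpt m x (z : ℂ)) ^ k

theorem FF_bdd (hJE : JEStmt) {m : ℕ} (hm : 1 ≤ m) (k : ℕ) :
    (FF m k) =O[atImInfty] (fun _ : ℍ => (1 : ℝ)) := by
  have h1 : (fun z : ℍ => ∑ x ∈ idx m, (ModularForm.discriminant z ^ m * J (hpt m x (z : ℂ))) ^ k)
      =O[atImInfty] (fun _ : ℍ => (1 : ℝ)) := by
    refine IsBigO.fun_sum fun x hx => ?_
    have h2 := (term_bdd hJE hm hx).pow k
    simpa using h2
  refine h1.congr_left fun z => ?_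
  unfold FF
  rw [Finset.mul_sum]
  refine Finset.sum_congr rfl fun x _ => ?_
  rw [mul_pow, ← pow_mul, mul_comm m k]

theorem disc_smul (γ : SL(2, ℤ)) (z : ℍ) :
    ModularForm.discriminant (γ • z) * denom γ z ^ (-12 : ℤ) = ModularForm.discriminant z := by
  have h1 := SlashInvariantForm.slash_action_generators_SL2Z discriminant_S_invariant
    discriminant_T_invariant γ
  have h2 := congrFun h1 z
  rw [SL_slash_apply] at h2
  exact h2

theorem FF_slash (hHI : HIStmt) {m : ℕ} (hm : 1 ≤ m) (k : ℕ) (γ : SL(2, ℤ)) :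
    (FF m k) ∣[(12 * ((k * m : ℕ) : ℤ))] γ = FF m k := by
  ext z
  rw [SL_slash_apply]
  unfold FF
  rw [hHI m hm k γ z]
  have h1 := disc_smul γ z
  have h2 : denom γ z ^ (-(12 * ((k * m : ℕ) : ℤ))) = (denom γ z ^ (-12 : ℤ)) ^ (k * m) := by
    rw [← zpow_natCast, ← zpow_mul]
    congr 1
  rw [h2]
  calc ModularForm.discriminant (γ • z) ^ (k * m) * (∑ x ∈ idx m, J (hpt m x (z : ℂ)) ^ k) *
        (denom γ z ^ (-12 : ℤ)) ^ (k * m)
      = (ModularForm.discriminant (γ • z) * denom γ z ^ (-12 : ℤ)) ^ (k * m) *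
        ∑ x ∈ idx m, J (hpt m x (z : ℂ)) ^ k := by rw [mul_pow]; ring
    _ = _ := by rw [h1]

theorem FF_holo (hJE : JEStmt) {m : ℕ} (hm : 1 ≤ m) (k : ℕ) :
    DifferentiableOn ℂ ((FF m k) ∘ ofComplex) {z : ℂ | 0 < z.im} := by
  have hD : DifferentiableOn ℂ ((CuspForm.discriminant : ℍ → ℂ) ∘ ofComplex) {z : ℂ | 0 < z.im} :=
    UpperHalfPlane.mdifferentiable_iff.mp CuspForm.discriminant.holo'
  have h1 : DifferentiableOn ℂ (fun z : ℂ => ModularForm.discriminant (ofComplex z) ^ (k * m) *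
      ∑ x ∈ idx m, J (hpt m x z) ^ k) {z : ℂ | 0 < z.im} := by
    refine (hD.pow (k * m)).mul (DifferentiableOn.fun_sum fun x hx => ?_)
    refine DifferentiableOn.pow ?_ k
    refine (J_diffOn hJE).comp (f := fun z : ℂ => hpt m x z) ?_ ?_
    · unfold hpt
      fun_prop
    · intro z hz
      exact im_hpt_pos hm hx hz
  refine h1.congr fun z hz => ?_
  have hz' : 0 < z.im := hz
  have h2 : ((ofComplex z : ℍ) : ℂ) = z := by rw [ofComplex_apply_of_im_pos hz']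
  show FF m k (ofComplex z) = _
  unfold FF
  rw [h2]

theorem mp (hJE : JEStmt) (hHI : HIStmt) : MPStmt := by
  intro m hm k
  refine ⟨{ toFun := FF m k
            slash_action_eq' := fun _ ⟨γ, hγ⟩ => hγ ▸ FF_slash hHI hm k γ
            holo' := UpperHalfPlane.mdifferentiable_iff.mpr (FF_holo hJE hm k)
            bdd_at_cusps' := ?_ }, fun z => rfl⟩
  intro c hc
  rw [Subgroup.IsArithmetic.isCusp_iff_isCusp_SL2Z] at hc
  rw [OnePoint.isBoundedAt_iff_forall_SL2Z hc]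
  intro γ _
  rw [FF_slash hHI hm k γ, IsBoundedAtImInfty, BoundedAtFilter]
  exact FF_bdd hJE hm k

end Pool.Agent.ZPT.H76
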